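import Mathlib
import Pool.Agent.H839.DM.Main

/-!
# `BP(n)` for all `n` and the category of geometric motives over a finite field

Let `k` be a finite field. The statement `BP(n)` for all `n` is about smooth projective schemes. We
show that it is equivalent to each of several properties of the whole triangulated category
`DM_gm(k)` of geometric motives of Voevodsky with rational coefficients:

* `DM_gm(k)` is an abelian category (it is then semisimple: every morphism has a quasi-inverse, and
  all rings of endomorphisms are semisimple and finite dimensional);
* only the morphisms `𝟙 ⟶ M(X)^∨(n)[i]`, `X` smooth projective, that is the elements of the groups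
  `H^i(X, ℚ(n))`, have kernels in `DM_gm(k)`;
* the `ℓ`-adic realization of `DM_gm(k)` is faithful, and also
  `Hom(P, N) ⊗ ℚ_ℓ ⟶ Hom(H(P), H(N))` is injective for all geometric motives `P`, `N`;
* the composition pairings `Hom(𝟙, N) × Hom(N, 𝟙) → ℚ` are perfect for all geometric motives `N`, or
  the trace pairings `Hom(P, N) × Hom(N, P) → ℚ` are perfect for all `P`, `N`.

Neither the conjecture of Tate nor the finite-dimensionality of motives is used.

## The setting

`D` is `DM_gm(k)`, an idempotent complete triangulated category (with the structure of Mathlib) and a
rigid symmetric tensor category, linear over the field `F = ℚ`, in which `End(𝟙) = ℚ` (`hunit`). `S` is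
the class of the objects isomorphic to `M(X)^∨(n)[i]` for smooth projective `X` of pure dimension and
`n`, `i` in `ℤ`. It is stable under shifts and duals (`M(X) = M(X)^∨(d)[2d]`), and it generates `D` (`hS`)
as a triangulated category closed under retracts (Voevodsky, Gabber, Kelly, Bondarko). For
`M = M(X)^∨(n)[i]` the groups `Hom(𝟙, M)` and `Hom(M, 𝟙)` are `H^i(X, ℚ(n))` and
`H^(2d-i)(X, ℚ(d-n))`, and the composition is the cup product followed by the degree; so the first
statement of the list, `UnitPerfect` for all objects of `S`, is `BP(n)` for all `n`.
`R : Realization ℚ ℚ_ℓ D` is the `ℓ`-adic realization: `ev` and `od` are the sums of the cohomology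
groups in even and odd degrees; they are finite dimensional, and the Lefschetz trace formula
`tr(f) = Tr(f | ev) - Tr(f | od)` holds for the categorical trace `catTrace` (as the realization is a
symmetric tensor functor to super vector spaces). These are all the properties which are used.

## The proof

1 → 2 is the five lemma. 2 → 3 is duality. 3 → 5: the trace form on `End(P)` is nondegenerate and
nilpotent endomorphisms have trace zero, so `End(P)` is semisimple by the argument of Jannsen. 5 → 6
is applied to `End(P ⊕ N)`. Quasi-inverses and the splitting of idempotents give kernels and
cokernels, and in a triangulated category monomorphisms and epimorphisms split, which gives 6 ↔ 4.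
7 → 1: a kernel of `𝟙 ⟶ M` is a direct summand of `𝟙`, so a nonzero morphism `𝟙 ⟶ M` has a left
inverse. 8 → 2: let `g : N ⟶ 𝟙` be not zero, with the cone `u : 𝟙 ⟶ C`. As `H(g)` is not zero and
`H(𝟙)` has dimension one, `H(g)` is surjective, so `H(u) = 0` and `u = 0`, and `g` has a section.
-/

set_option autoImplicit false

open CategoryTheory CategoryTheory.Limits MonoidalCategory

universe u v w x

namespace Pool.Agent.Results.MP_a9d3bd_ag.GeometricMotivesAbelian

open Pool.Agent.H839.DM

/-- **Perfectness of the motivic pairings and the category of geometric motives.** The following are
equivalent: the pairings of the motivic cohomology groups of smooth projective schemes are perfect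
(`BP(n)` for all `n`); the pairings with the unit are perfect for all geometric motives; the trace
pairings are perfect; the category of geometric motives is abelian; the endomorphism rings of
geometric motives are finite dimensional and semisimple; all morphisms of geometric motives have
quasi-inverses; the morphisms `𝟙 ⟶ M(X)^∨(n)[i]` have kernels; the realization is faithful; the
realization with coefficients extended to `K` is faithful. -/
theorem result {F : Type w} [Field F] [CharZero F] {K : Type x} [Field K] [Algebra F K]
    {D : Type u} [Category.{v} D] [Preadditive D] [Linear F D] [MonoidalCategory D]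
    [MonoidalPreadditive D] [MonoidalLinear F D] [SymmetricCategory D] [RightRigidCategory D]
    [HasZeroObject D] [HasShift D ℤ] [∀ n : ℤ, (shiftFunctor D n).Additive] [Pretriangulated D]
    [IsIdempotentComplete D]
    (hunit : ∀ f : 𝟙_ D ⟶ 𝟙_ D, ∃ c : F, f = c • 𝟙 (𝟙_ D))
    (R : Realization F K D)
    (S : ObjectProperty D) [S.IsStableUnderShift ℤ] (hS : S.IsClassicalTriangulatedGenerator)
    (hdual : ∀ M, S M → S (Mᘁ)) :
    List.TFAE [
      ∀ M, S M → UnitPerfect F M,
      ∀ N : D, UnitPerfect F N,
      ∀ P N : D, TracePerfect F P N,
      Nonempty (Abelian D),
      ∀ P : D, Module.Finite F (End P) ∧ IsSemisimpleRing (End P),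
      QuasiInverses D,
      ∀ M, S M → ∀ f : 𝟙_ D ⟶ M, HasKernel f,
      R.Faithful,
      R.KFaithful] :=
  Pool.Agent.H839.DM.main R hunit S hS hdual

end Pool.Agent.Results.MP_a9d3bd_ag.GeometricMotivesAbelian
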