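import Mathlib
import Pool.Agent.H298.Core.WeilRel
import Pool.Graph.R_pool_sql_team_seeded_1acbe0a2.Y1.CT.LThms
import Pool.Agent.H298.Core.Double

/-!
# Perfectness of the motivic cup product pairings for the products of arbitrary varieties with
abelian varieties whose CM fields have irreducible odd part or primitive core

**In short.** Let `K` be a CM field of degree `2 g`, `K₀` its maximal real subfield and `2 ^ v`, `1
≤ v ≤ g`, the degree of the Galois closure of `K` over the Galois closure of `K₀` (typically `v =
g`). The theorem is for the Weil numbers `π` all powers of which generate `K`, in the following
cases (`FieldCriteria`), among others: **(a) `v > g / 3`; (b) the slopes of `π` have odd
denominators, for example `π` is ordinary, and `v > g / 4`, or `g` is the product of two prime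
numbers and `v > 1`, or `g` is prime, or `K` has few divisors in the sense of `FewDivisors`; (c) the
Galois group of `K₀` is doubly transitive, and `g` is odd, or `g - 1` is a prime number, or at least
`g` is none of the numbers `10, 16, 26, 28, 36, …` (`TwoGraphDegree`); or it is triply transitive,
for example the symmetric group, or the alternating group if `g ≥ 5`, `g ≥ 3`; and no norm of `π` to
an imaginary quadratic field is supersingular** (this is
so if `g` is odd and `π` is ordinary). The general hypothesis (`IsCoreWeil`) is explained below.

**Cores.** Let `X` be the set of the complex embeddings of the CM field `K`, `[K : ℚ] = 2 g`. The
automorphisms of `ℂ` which map all elements of `X` to themselves or to their complex conjugates are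
called sign changes. The first core of `φ : X` consists of the `ψ : X` which are moved by the same
sign changes as `φ`. If one uses all automorphisms which map the elements of the first core to
themselves or to their conjugates, one obtains the second core, inside of the first one, and so on
(`coreOf`). The cores of the same index have the same number `2 c` of elements, `c` divides `g`, and
the smallest such number `c` is the core number of `K`. It satisfies `c ≤ g / v`, and if a prime
number `q` divides the discriminant of `K`, but not the discriminant of the maximal real subfield,
then `q ^ c` divides the discriminant of `K`. `FewDivisors` says that all divisors of `g` which
satisfy these conditions are one or prime.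

**The Weil numbers.** Let `p` be a prime number, `q = p ^ a`, let `K i` (`i` in a finite set) be CM
fields and `π i` Weil numbers for `q` in `K i` such that each power `(π i) ^ n`, `n ≥ 1`, generates
`K i`. By Honda and Tate they correspond to the abelian varieties over the field with `q` elements
which are geometrically simple with commutative endomorphism ring, and to other abelian varieties.
Suppose that for each `K = K i` one of the following conditions holds (`IsCoreWeil`).

* The rational functions on `X` which change their sign under complex conjugation are an irreducible
  representation of the automorphisms of `ℂ` (`OddIrreducible`), for example because the core number
  of `K` is one.
* There is a core with `c` pairs of embeddings, and `c` is a prime number, or `c = [K : F]` for a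
  subfield `F`, not totally real, such that the automorphisms of `ℂ` act doubly transitively on the
  extensions to `K` of an embedding of `F` (`PrimitiveCore`); and there is **no** subfield `F` with
  `[K : F] = c`, not totally real, in which the norm `N` of `π i` is supersingular
  (`SupersingularNorm`; this means that `N ^ 2 / q ^ c` is a root of unity).

The condition on the norms in the second case is necessary and sufficient for the absence of
relations between the conjugates of `π i` (`NormCriteria`), and so of exotic Tate classes on the
powers of its abelian variety; it is satisfied if `c = 2`, if `c` is odd and the slopes of `π i`
have odd denominators (for example in the ordinary case), and if all subfields `F` with `[K : F] =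
c` are totally real. There are no other conditions on `π i`, its slopes, the decomposition of `p` in
`K i`, the degree or the Galois group of `K i`. The fields `K i` are pairwise independent
(`PairwiseIndep`; no condition if there is only one field). Let `f i` be monic polynomials whose
complex roots are conjugates of `π i` (`IsPolyOf`), for instance powers of the characteristic
polynomials of Frobenius.

Let `A` be an abelian variety over the field with `Q = q ^ s` elements which is isogenous to a
product of powers of abelian varieties coming from the field with `q` elements, with characteristic
polynomials `f i`, and let `Z` be **any** smooth projective variety over the field with `Q` elements
such that the Frobenius endomorphism of `Z` satisfies on the motivic cohomology groups of `A × Z`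
nonzero rational polynomials whose roots are independent of the fields `K i` (`HasIndependent`): for
each root `ρ` and each complex embedding `ψ` of `K i` some automorphism of `ℂ` fixes a power of `ρ`
and is the complex conjugation on `ψ (K i)`, for instance, if a power of `ρ` lies in a totally real
field, or in a number field `F` from which the `K i` are separated by prime numbers (see below).
This is so if the motive of `Z` is finite-dimensional in the sense of Kimura and O'Sullivan (known
for all varieties dominated by products of curves), and the Frobenius eigenvalues on the cohomology
of `Z` are independent of the `K i`.

There are finitely many products `D t` of `c t` divisors on `A` such that `H^i(A × Z, ℚ(j)) = ⨁ D t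
× H^(i - 2 c t)(Z, ℚ(j - c t))`, and **for all `i`, `j` the cup product pairing `<,>_(i, j)` of `A ×
Z` is perfect if and only if the pairings `<,>_(i - 2 k, j - k)` of `Z`, `0 ≤ k ≤ dim A`, are
perfect** (`PerfectTimes`). So all pairings of `A` are perfect, those of `A × Z` are all perfect if
`Z` is a curve, and in general if and only if those of `Z` are; and `BP(n)` for `A × Z` is
equivalent to `BP(l)` for `Z`, `n - dim A ≤ l ≤ n`.

The framework is the one of the library: `AbelianData` contains the Chow ring, the correspondences
and the cohomology of `A`, with their standard properties (`IsAbelian`), among them Kimura
nilpotence and the theorem of Tate on divisors; `RelData` contains the groups of `Z` and `A × Z`
with the products and push-forwards with classes on `A`, and the operation of the correspondences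
and of Frobenius, and `CupProduct` the cup products.

Part two (`AllCriteria`) contains the criteria: the cases (a), (b) and (c) above (`FieldCriteria`, `DoublyCriteria`),
the facts about the cores (`CoreFacts`) and about the norms (`NormCriteria`), the independence of
the fields, and the condition on the eigenvalues. A prime number `ℓ` separates `K i` from a number
field `F` if `ℓ` divides the discriminant of `K i` but not the one of its maximal real subfield and
not the one of `F`. The fields `K i` are pairwise independent if any two of them are separated by a
prime number (in one direction). All nonzero elements of `F` are independent of the `K i`, in
particular unrelated to them, if all `K i` are separated from `F`. So for example, if `ℓ` divides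
the discriminant of a CM field `K` and `ℓ ^ 2` does not, then the theorem holds for all Weil numbers
`π` in `K` with `ℚ(π ^ n) = K` for all `n`, and all varieties whose eigenvalues lie in fields of a
discriminant prime to `ℓ`.

**What was known.** In the library the reduction from `A × Z` to `Z` is proved for almost all slope
types of CM fields (`AllCMTypesTimes`, whose machine is used) and in this run for almost all Weil
polynomials (`SharpExceptionalSet`); for the powers of one abelian variety of prime dimension the
perfectness follows from work of Tankeev, Ribet, Soulé, Geisser and Kahn. New here are the abelian
varieties of all dimensions in the fields with primitive cores, with a condition on the norms which
is necessary and sufficient, without exceptional types.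

**The proof.** It is sufficient to show for each field `K` that the function `w`, the slope of `φ
(π)` minus one half, on the set `X` is not orthogonal to a nonzero space of odd functions which is
stable under the automorphisms of `ℂ`. If the odd functions are irreducible this is clear. Let `r`
be an element of such a space with integral values. By the sign changes one can cut `r` down; this
gives, by induction on the size of the support and on the index of the core, a relation which is
supported in one core. The automorphisms preserving the core act transitively on it. If it has `2 c`
elements with a prime number `c`, then a Sylow subgroup contains an element which has two orbits of
length `c` on the core, exchanged by the complex conjugation. Since the cyclotomic polynomial is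
irreducible, either `w (τ φ) = w (τ φ')` for all `τ` with two different `φ`, `φ'` of the core, or
the sums of `w` over the translates of one orbit are zero, and the orbit consists of the extensions
of an embedding of a subfield `F` with `[K : F] = c`, which is not totally real. In the doubly
transitive case the extensions of an embedding of `F` are one half of the core (a sign change moves
all of them or none), and an average over a stabilizer gives the same two alternatives. In the first
case `φ (π)` and `φ' (π)` have the same absolute values at all places of all conjugates, so they
differ by a root of unity, and a power of `π` does not generate `K`. In the second case the norm of
`π` in `F` is supersingular. Conversely a supersingular norm is a relation, by Kronecker's theorem.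
For the cases (a), (b) and (c) one uses that a sign change is determined by the first cores which it
moves, so that `2 ^ v ≤ 2 ^ (g / c)`, and that for a triply transitive group either the odd
functions are irreducible or the signs are given by a character of the group, so that `K` contains
an imaginary quadratic field. If the group is doubly transitive, let `V` be a space of odd functions
which is stable under the automorphisms, neither zero nor everything. The values of its reproducing
kernel at two embeddings in different pairs are `β` or `-β`, and `β ≠ 0`; the signs form a regular
two-graph on the `g` pairs, with the eigenvalues `r` on `V` and `-s` on the orthogonal space,
`r s = g - 1`, `(r + s) dim V = g s`. If `g` is odd then `r` or `s` is even, and a descent modulo two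
shows that the nonzero functions in one of the two spaces have no zeros; by the maximum principle
this is also true if `r` or `s` is `1` or `-1`. So this space has dimension one, and the signs of its
functions give an imaginary quadratic subfield. It follows that the correspondence on `A` given by the sum of the
products of dual classes of divisor products acts as the identity on the motivic cohomology of `A ×
Z`: the Frobenius endomorphism of `A × Z` is the multiplication by `Q ^ j`, so that the Frobenius
endomorphism of `A` satisfies a power of the polynomial reciprocal to that of the Frobenius
endomorphism of `Z`; this polynomial is prime to the one whose value on `H(A)` lies in the part
generated by divisors, and the difference of the two correspondences is nilpotent. (The idea to play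
the eigenvalues of Frobenius off against nilpotence is due to Soulé, Geisser and Kahn.)
-/

set_option autoImplicit false

namespace Pool.Agent.Results.MP_a9d3bd_ag.SmallCoreFields

open NumberField Polynomial Pool.Agent.H977R3.CM Pool.Agent.Y1.CT Pool.Agent.H298.Core

/-- **The cup product pairing `<,>_(i, j)` of `A × Z` is perfect if and only if the pairings `<,>_(i - 2
k, j - k)` of `Z`, `0 ≤ k ≤ dim A`, are, for all abelian varieties `A` whose Weil numbers lie in
independent CM fields with irreducible odd part or primitive core, and all varieties `Z` with
independent eigenvalues.** -/
theorem result :
    (∀ (p : ℕ) [Fact p.Prime] (a : ℕ), 0 < a → ∀ (I : Type) [Fintype I] (K : I → Type)
      [∀ i, Field (K i)] [∀ i, NumberField (K i)] [∀ i, IsCMField (K i)], PairwiseIndep K →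
      ∀ (π : ∀ i, K i) (f : I → ℤ[X]), (∀ i, IsCoreWeil p a (π i)) →
      (∀ i, IsPolyOf (π i) (f i)) → L.PerfectTimes K (p ^ a) f) ∧ AllCriteria :=
  ⟨fun _ _ _ ha _ _ _ _ _ _ hK _ _ hπ hf =>
    L.perfectTimes (Nat.one_lt_pow ha.ne' (Fact.out : Nat.Prime _).one_lt)
      (noRel_independent ha hK hπ hf), allCriteria_hold⟩

end Pool.Agent.Results.MP_a9d3bd_ag.SmallCoreFields
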